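import Pool.Agent.H3.MX.Wld
import Pool.Agent.H3.MX.Mov
import Pool.Agent.H3.MX.EvM
import Pool.Agent.H3.MX.Lin
import Pool.Agent.H67.RG.FinR

/-!
# FG, MIX: the theorem (assembly)
-/

set_option autoImplicit false
set_option linter.unusedSectionVars false

namespace Pool.Agent.H81.MX

open Finset Pool.Agent.H93.RG Pool.Agent.H3.MX
open Pool.Agent.H3.Frg hiding ind
open Pool.Agent.H3.RG (Mr)
open Pool.Agent.H3.Ac (ldep SubCl)
open Pool.Agent.H67.FG (ind Alg Fo tr orAll orF IsRef Few DegOK guess_exists self_mem_subs)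
open Pool.Agent.H67.RG (Ev df)

theorem degOK_mono {F : Type} [Field F] {V : Type} {m T T' : ℕ} (h : T ≤ T') {A : Fo V} (hA : DegOK F m T A) :
    DegOK F m T' A := by
  intro Y 𝓐 r g h1 h2 D0 h3 h4 hK B hB
  have hT : T * D0 ≤ T' * D0 := Nat.mul_le_mul_right _ h
  obtain ⟨a, b, c⟩ := hA Y 𝓐 r g h1 h2 D0 h3 h4 (hT.trans hK) B hB
  exact ⟨𝓐.mono hT a, 𝓐.mono hT b, c⟩

/-- gate free lines move from one prime to another -/
theorem df_move {p p' r q K c : ℕ} [Fact p.Prime] [Fact p'.Prime] [NeZero r] [NeZero q] (hr : 1 ≤ r)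
    {𝓦 : MW r (ZMod p) (Ed q → ZMod r) (Pt r q c)} {𝓦' : MW r (ZMod p') (Ed q → ZMod r) (Pt r q c)}
    (h : WW p K c 𝓦) (h' : WW p' K c 𝓦') {V : Type} (val : Fm (V ⊕ Bool) → Finset (Finset (Pt r q c)) → Option Bool)
    (w : ℕ) (hK : 3 * ((w + 1) * (r * w) * (q - 1)) ≤ K) {m m' k D1 : ℕ} {Hyp L : Set (Fo V)}
    {g g' : (Ed q → ZMod r) → Fo V → Bool}
    (E : Ev m k 𝓦.toAlg D1 (fun y C => run r w (val C) (Mr y) (w + 1) ∅) g Hyp L)
    (E' : Ev m' k 𝓦'.toAlg D1 (fun y C => run r w (val C) (Mr y) (w + 1) ∅) g' Hyp L)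
    {A : Fo V} (hA : A ∈ L) (hg : A.gates = ∅) (hd : df g A ∈ 𝓦.Z) : df g' A ∈ 𝓦'.Z := by
  set C0 : Fm (V ⊕ Bool) := tr (fun _ => false) A with hC0
  have key : ∀ {p₁ : ℕ} [Fact p₁.Prime] {𝓤 : MW r (ZMod p₁) (Ed q → ZMod r) (Pt r q c)} {m₁ : ℕ}
      {g₁ : (Ed q → ZMod r) → Fo V → Bool}
      (E₁ : Ev m₁ k 𝓤.toAlg D1 (fun y C => run r w (val C) (Mr y) (w + 1) ∅) g₁ Hyp L),
      (df g₁ A : (Ed q → ZMod r) → ZMod p₁) = ind (fun y => run r w (val C0) (Mr y) (w + 1) ∅ = some false) +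
        ind (fun y => run r w (val C0) (Mr y) (w + 1) ∅ = none) := by
    intro p₁ _ 𝓤 m₁ g₁ E₁
    funext y
    have h1 : tr (g₁ y) A = C0 := tr_free _ _ A hg
    have h2 := E₁.val y A
    simp only [h1] at h2
    simp only [df, Pi.sub_apply, Pi.one_apply, Pi.add_apply, ind, h2]
    have h3 : ∀ x : Option Bool, x = none ∨ x = some false ∨ x = some true := by
      rintro (_ | _ | _) <;> simp
    rcases h3 (run r w (val C0) (Mr y) (w + 1) ∅) with hx | hx | hx <;> simp [hx]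
  have s1 := E.sz A hA A (self_mem_subs _)
  have s2 := E'.sz A hA A (self_mem_subs _)
  have e1 : ∀ (g₁ : (Ed q → ZMod r) → Fo V → Bool) (y : Ed q → ZMod r), tr (g₁ y) A = C0 := fun g₁ y => tr_free _ _ A hg
  simp only [e1] at s1 s2
  rw [key E'] 
  refine 𝓦'.Z.add_mem ?_ s2
  refine run_move hr h h' w (w + 1) (val C0) hK _ ?_
  have h3 := 𝓦.Z.sub_mem hd s1
  rw [key E] at h3
  simpa using h3

/-- the lower bound with parameters -/
theorem mix_lower {r : ℕ} (hr : 2 ≤ r) {T d k m t w q N : ℕ} (hT : 1 ≤ T)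
    (hd : 1 ≤ d) (hw : 1 ≤ w) (hq : 1000 * r * (k + 3) * (T * (w + 1) ^ 2) ≤ q) (hq1 : q % r = 1)
    (hNL : lev r w (q * (q - 1) * (r - 1) + N % r) d ≤ N) (π : List (ℕ × Fo (Finset (Fin N))))
    (hπ : IsMix k (Count r N) π)
    (hmod : ∀ x ∈ π, x.1 ≤ m ∧ ∃ p e : ℕ, p.Prime ∧ ¬ p ∣ r ∧ 1 ≤ e ∧ x.1 = p ^ e)
    (hline : ∀ x ∈ π, ∀ B ∈ x.2.subs, B.dep ≤ d ∧ B.outer.ncard ≤ t)
    (hdeg : ∀ x ∈ π, ∀ (p e : ℕ) (_ : Fact p.Prime), 1 ≤ e → p ^ e ≤ m → DegOK (ZMod p) (p ^ e) T x.2) :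
    2 ^ w < 2 ^ t * {B | ∃ x ∈ π, B ∈ x.2.subs}.ncard + 2 := by
  by_contra hcon
  push Not at hcon
  have hset : {B | ∃ A ∈ π.map Prod.snd, B ∈ A.subs} = {B | ∃ x ∈ π, B ∈ x.2.subs} := by
    ext B
    constructor
    · rintro ⟨A, hA, hB⟩
      obtain ⟨x, hx, rfl⟩ := List.mem_map.1 hA
      exact ⟨x, hx, hB⟩
    · rintro ⟨x, hx, hB⟩
      exact ⟨x.2, List.mem_map.2 ⟨x, hx, rfl⟩, hB⟩
  obtain ⟨S, hS, hSt, hSc, hSd, hSl⟩ := H93.FG2.sub_list_card (π.map Prod.snd) t d (by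
    intro A hA B hB
    obtain ⟨x, hx, rfl⟩ := List.mem_map.1 hA
    exact hline x hx B hB)
  have hSl' : S.length ≤ 2 ^ w := by
    refine hSl.trans ?_
    have : H93.FG2.allSubs (π.map Prod.snd) = {B | ∃ x ∈ π, B ∈ x.2.subs} := hset
    rw [this]
    exact hcon
  have hSt' : ∀ x ∈ π, ∀ B ∈ x.2.subs, ∀ g, tr g B ∈ S := fun x hx B hB g =>
    hSt x.2 (List.mem_map.2 ⟨x, hx, rfl⟩) B hB g
  -- numbers
  have hr1 : 1 ≤ r := by omega
  have : NeZero r := ⟨by omega⟩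
  set X := T * (w + 1) ^ 2 with hXdef
  have hX : 1 ≤ X := Nat.one_le_iff_ne_zero.2 (by positivity)
  have hX1 : (w + 1) ^ 2 ≤ X := Nat.le_mul_of_pos_left _ hT
  have hq4 : 3000 * (r * X) ≤ q := by
    refine le_trans ?_ hq
    have : 3 * (r * X) ≤ (k + 3) * (r * X) := Nat.mul_le_mul_right _ (by omega)
    calc 3000 * (r * X) = 1000 * (3 * (r * X)) := by ring
      _ ≤ 1000 * ((k + 3) * (r * X)) := Nat.mul_le_mul_left _ this
      _ = 1000 * r * (k + 3) * X := by ring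
  have hrX : r ≤ r * X := Nat.le_mul_of_pos_right _ hX
  have hq3 : 3000 ≤ q := by omega
  have : NeZero q := ⟨by omega⟩
  set K := q ^ 2 / 10 with hKdef
  have hK10 : 10 * K ≤ q ^ 2 := Nat.mul_div_le _ _
  have hK11 : q ^ 2 < 10 * K + 10 := by
    have := Nat.lt_mul_div_succ (q ^ 2) (show 0 < 10 by norm_num)
    omega
  have hq2 : 3000 * q ≤ q ^ 2 := by nlinarith
  set c := N % r with hcdef
  have hcard := card_Pt r q c
  have hdvd : r ∣ q - 1 := by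
    have h1 := Nat.div_add_mod q r
    rw [hq1] at h1
    exact ⟨q / r, by omega⟩
  have hmodN : N % r = Fintype.card (Pt r q c) % r := by
    rw [hcard]
    obtain ⟨z, hz⟩ := hdvd
    rw [hz, show q * (r * z) * (r - 1) = r * (q * z * (r - 1)) by ring, Nat.mul_add_mod, hcdef, Nat.mod_mod]
  have hcard2 : 100 * r ^ 2 * (w + 1) ^ 2 ≤ Fintype.card (Pt r q c) := by
    rw [hcard]
    have h1 : r * (w + 1) ^ 2 ≤ r * X := Nat.mul_le_mul_left _ hX1
    have h2 : 100 * r ^ 2 * (w + 1) ^ 2 ≤ q * r := by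
      calc 100 * r ^ 2 * (w + 1) ^ 2 = 100 * (r * (w + 1) ^ 2) * r := by ring
        _ ≤ q * r := Nat.mul_le_mul_right _ (by omega)
    have h3 : q * r ≤ q * (q - 1) * (r - 1) := by
      have h4 : r ≤ q - 1 := by omega
      calc q * r ≤ q * (q - 1) := Nat.mul_le_mul_left _ h4
        _ ≤ q * (q - 1) * (r - 1) := Nat.le_mul_of_pos_right _ (by omega)
    omega
  obtain ⟨val, hval, hcoh, hv1, hv2, hv3⟩ := tower hr hd hw hcard2 hmodN (by rw [hcard]; exact hNL) S hS hSd hSl'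
  set D0 := (w + 1) * (r * w) * (q - 1) with hD0
  set D1 := T * D0 with hD1
  have hD0le : D0 ≤ r * (w + 1) ^ 2 * q := by
    rw [hD0]
    calc (w + 1) * (r * w) * (q - 1) ≤ (w + 1) * (r * (w + 1)) * q := by
          apply Nat.mul_le_mul
          · apply Nat.mul_le_mul_left
            exact Nat.mul_le_mul_left _ (by omega)
          · omega
      _ = r * (w + 1) ^ 2 * q := by ring
  have hD1le : D1 ≤ r * X * q := by
    calc D1 = T * D0 := hD1
      _ ≤ T * (r * (w + 1) ^ 2 * q) := Nat.mul_le_mul_left _ hD0le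
      _ = r * X * q := by rw [hXdef]; ring
  have hKD : (k + 6) * D1 ≤ K := by
    have h1 : (k + 6) * D1 ≤ (2 * (k + 3)) * (r * X * q) :=
      Nat.mul_le_mul (by omega) hD1le
    have h3 : 500 * ((2 * (k + 3)) * (r * X * q)) ≤ q ^ 2 := by
      calc 500 * ((2 * (k + 3)) * (r * X * q))
          = (1000 * r * (k + 3) * X) * q := by ring
        _ ≤ q * q := Nat.mul_le_mul_right _ hq
        _ = q ^ 2 := by ring
    omega
  have hD01 : D0 ≤ D1 := Nat.le_mul_of_pos_left _ hT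
  have hK3 : 3 * D0 ≤ K := by
    have : 6 * D1 ≤ (k + 6) * D1 := Nat.mul_le_mul_right _ (by omega)
    omega
  set L : Set (Fo (Finset (Fin N))) := {A | ∃ x ∈ π, x.2 = A} with hL
  have hLm : ∀ {i : ℕ} (hi : i < π.length), (π[i]).2 ∈ L := fun {i} hi => ⟨_, List.getElem_mem hi, rfl⟩
  set rr : (Ed q → ZMod r) → Fm (Finset (Fin N) ⊕ Bool) → Option Bool :=
    fun y C => run r w (val C) (Mr y) (w + 1) ∅ with hrr
  -- worlds and values for every modulus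
  have hex : ∀ (p e : ℕ) (_ : Fact p.Prime), ¬ p ∣ r → 1 ≤ e → p ^ e ≤ m →
      ∃ (𝓦 : MW r (ZMod p) (Ed q → ZMod r) (Pt r q c)) (_ : WW p K c 𝓦)
        (g : (Ed q → ZMod r) → Fo (Finset (Fin N)) → Bool), Ev (p ^ e) k 𝓦.toAlg D1 rr g (Count r N) L := by
    intro p e _ hpr he hm
    obtain ⟨𝓦, hW⟩ := world_mx p hr hpr K c (q := q) (by omega) hq1 (by omega) (by omega)
    obtain ⟨g, hg⟩ := ev_of (m := p ^ e) (k := k) hr hw hT 𝓦 hcard2
      (by rw [hW.cost, hW.bd]; exact hKD) S hS val hval hcoh hv1 hv2 hv3 L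
      (by
        rintro A ⟨x, hx, rfl⟩ B hB G
        exact hSt' x hx B hB G)
      (by
        rintro A ⟨x, hx, rfl⟩
        exact hdeg x hx p e inferInstance he hm)
    rw [hW.cost, hW.part] at hg
    exact ⟨𝓦, hW, g, hg⟩
  -- all lines
  have main : ∀ (i : ℕ) (hi : i < π.length) (p e : ℕ) (_ : Fact p.Prime), (π[i]).1 = p ^ e →
      ∀ (𝓦 : MW r (ZMod p) (Ed q → ZMod r) (Pt r q c)) (_ : WW p K c 𝓦)
        (g : (Ed q → ZMod r) → Fo (Finset (Fin N)) → Bool), Ev (p ^ e) k 𝓦.toAlg D1 rr g (Count r N) L →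
        df g (π[i]).2 ∈ 𝓦.Z := by
    intro i
    induction i using Nat.strong_induction_on with
    | _ i ih =>
      intro hi p e _ hpe 𝓦 hW g hE
      -- premises
      have prem : ∀ (j : ℕ) (hj : j < i), ((π[j]'(hj.trans hi)).1 = (π[i]).1 ∨ (π[j]'(hj.trans hi)).2.gates = ∅) →
          df g (π[j]'(hj.trans hi)).2 ∈ 𝓦.Z := by
        intro j hj h
        rcases h with h | h
        · exact ih j hj (hj.trans hi) p e inferInstance (h.trans hpe) 𝓦 hW g hE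
        · obtain ⟨hm', p', e', hp', hpr', he', hpe'⟩ := hmod _ (List.getElem_mem (hj.trans hi))
          have : Fact p'.Prime := ⟨hp'⟩
          obtain ⟨𝓦', hW', g', hE'⟩ := hex p' e' inferInstance hpr' he' (by rw [← hpe']; exact hm')
          have h1 := ih j hj (hj.trans hi) p' e' inferInstance hpe' 𝓦' hW' g' hE'
          exact df_move hr1 hW' hW val w hK3 hE' hE (hLm _) h h1
      rcases hπ.line i hi with h | ⟨ψ, σ, h1, h2, h3⟩ | ⟨j, l, hj, hl, h, hj2, hl2⟩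
      · exact hyp_step hE (hLm hi) h
      · rw [h3]
        refine ax_step hE ψ σ h1 ?_ (h3 ▸ hLm hi)
        rw [← hpe]
        exact h2
      · have a1 := prem j hj hj2
        have a2 := prem l hl hl2
        rw [h] at a2
        exact mp_step hE (hLm _) (hLm _) (h ▸ hLm (hl.trans hi)) a1 a2
  obtain ⟨hne, A, hA⟩ := hπ.last
  have hlen : π.length - 1 < π.length := by
    have := List.length_pos_iff.2 hne
    omega
  have hA' : (π[π.length - 1]).2 = .neg (.imp A A) := by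
    rw [← hA, List.getLast_eq_getElem]
  obtain ⟨hm', p, e, hp, hpr, he, hpe⟩ := hmod _ (List.getElem_mem hlen)
  have : Fact p.Prime := ⟨hp⟩
  obtain ⟨𝓦, hW, g, hE⟩ := hex p e inferInstance hpr he (by rw [← hpe]; exact hm')
  have h1 := main _ hlen p e inferInstance hpe 𝓦 hW g hE
  rw [hA'] at h1
  exact last_step hE (hA' ▸ hLm hlen) h1

/-- Every line has its own modulus, each modulus is a power of a prime which does not divide `r`. -/
theorem mix_gates {r d k l m t N : ℕ} (hr : 2 ≤ r) (hd : 1 ≤ d) (hm : 2 ≤ m) (ht : 1 ≤ t)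
    (hN : ((k + 3) * (r * m * t) ^ (l + 11)) ^ (2 * r ^ (2 * d)) ≤ N)
    (π : List (ℕ × Fo (Finset (Fin N)))) (hπ : IsMix k (Count r N) π)
    (hmod : ∀ x ∈ π, x.1 ≤ m ∧ ∃ p e : ℕ, p.Prime ∧ ¬ p ∣ r ∧ 1 ≤ e ∧ x.1 = p ^ e)
    (hline : ∀ x ∈ π, (∀ B ∈ x.2.subs, B.dep ≤ d) ∧ Few t l x.2) :
    2 ^ t ≤ {B | ∃ x ∈ π, B ∈ x.2.subs}.ncard := by
  set Q := 1000 * r * (k + 3) * ((t * m) ^ l * (2 * t + 2) ^ 2) with hQ
  have hlev := H81.RG.num_explicit (d := d) (k := k) (l := l) (c := N % r) (q := r * Q + 1) hr hm ht (Nat.mod_lt _ (by omega))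
    (by rw [hQ])
  have h := mix_lower hr (T := (t * m) ^ l) (d := d) (k := k) (m := m) (t := t) (w := 2 * t + 1)
    (q := r * Q + 1) (Nat.one_le_iff_ne_zero.2 (pow_ne_zero _ (by positivity))) hd (by omega)
    (by
      have : Q ≤ r * Q := Nat.le_mul_of_pos_left _ (by omega)
      have h2 : 1000 * r * (k + 3) * ((t * m) ^ l * (2 * t + 1 + 1) ^ 2) = Q := by rw [hQ]
      omega)
    (by rw [Nat.mul_add_mod]; exact Nat.mod_eq_of_lt (by omega))
    (hlev.trans hN) π hπ hmod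
    (fun x hx B hB => ⟨(hline x hx).1 B hB, H93.FG2.few_outer (hline x hx).2 B hB⟩)
    (by
      intro x hx p e hp he hpm
      have hpe : 2 ≤ p ^ e := by
        calc 2 ≤ p := hp.out.two_le
          _ = p ^ 1 := (pow_one p).symm
          _ ≤ p ^ e := Nat.pow_le_pow_right hp.out.pos he
      exact degOK_mono (Nat.pow_le_pow_left (Nat.mul_le_mul_left _ hpm) l) (H93.FG2.few_deg ht hpe (hline x hx).2))
  by_contra hcon
  push Not at hcon
  have h1 : 2 ^ (2 * t + 1) = 2 ^ t * 2 ^ t * 2 := by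
    rw [pow_succ, two_mul, pow_add]
  have h2 : 2 ≤ 2 ^ t := by
    calc 2 = 2 ^ 1 := rfl
      _ ≤ 2 ^ t := Nat.pow_le_pow_right (by norm_num) ht
  have h3 : 2 ^ t * {B | ∃ x ∈ π, B ∈ x.2.subs}.ncard + 2 ^ t ≤ 2 ^ t * 2 ^ t := by
    calc 2 ^ t * {B | ∃ x ∈ π, B ∈ x.2.subs}.ncard + 2 ^ t = 2 ^ t * ({B | ∃ x ∈ π, B ∈ x.2.subs}.ncard + 1) := by ring
      _ ≤ 2 ^ t * 2 ^ t := Nat.mul_le_mul_left _ hcon
  omega

end Pool.Agent.H81.MX
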